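import Pool.Agent.Lib.P5632c9.Final

/-!
Every sufficiently large positive integer `n` is of the form `x² + y² - z²` with
`x², y², z² ≤ n`.
-/

namespace Pool.Agent.Results.MP_5632c9_nt.KeZhao

theorem result : ∃ N : ℕ, ∀ n : ℕ, N ≤ n → ∃ x y z : ℤ,
    (n : ℤ) = x ^ 2 + y ^ 2 - z ^ 2 ∧ x ^ 2 ≤ (n : ℤ) ∧ y ^ 2 ≤ (n : ℤ) ∧ z ^ 2 ≤ (n : ℤ) :=
  Pool.Agent.Lib.P5632c9.final

end Pool.Agent.Results.MP_5632c9_nt.KeZhao
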